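import Pool.Agent.H28.MCL.Targets

/-!
# Board `mlc_modules`: row MXG

The maximal inequality for long intervals on the left.
-/

set_option autoImplicit false

open Finset Filter

namespace Pool.Agent.H70.MCL

open Pool.Agent.H28.MCL

theorem mxg : T_MXG := by
  intro b θ x y S hb0 hb1 hθ hx hS hN
  obtain ⟨a, rfl⟩ : ∃ a, x = a + 1 := ⟨x - 1, by omega⟩
  obtain ⟨B, hB⟩ : ∃ B : ℕ → ℝ, B = fun N => ∑ n ∈ Finset.Ioc 0 N, b n := ⟨_, rfl⟩
  have hBs : ∀ N, B (N + 1) = B N + b (N + 1) := by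
    intro N
    rw [hB]
    exact Finset.sum_Ioc_succ_top (Nat.zero_le N) b
  have hB0 : ∀ N, 0 ≤ B N := by
    intro N
    rw [hB]
    exact Finset.sum_nonneg fun n _ => hb0 n
  have hBN : ∀ N : ℕ, B N ≤ N := by
    intro N
    induction N with
    | zero =>
      rw [hB]
      simp
    | succ N ih =>
      rw [hBs]
      push_cast
      linarith [hb1 (N + 1)]
  have key : ∀ j : ℕ, ∑ N ∈ Finset.Icc (a + 1) (a + j), B N / (N : ℝ) ^ 2 +
      2 * B (a + j) / ((a : ℝ) + j + 1) ≤
      2 * (1 + ∑ n ∈ Finset.Icc (a + 1) (a + j), b n / n) := by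
    intro j
    induction j with
    | zero =>
      have h1 : Finset.Icc (a + 1) (a + 0) = ∅ := Finset.Icc_eq_empty (by omega)
      rw [h1, Finset.sum_empty, Finset.sum_empty]
      have h2 := hBN a
      have h3 : (0 : ℝ) ≤ a := Nat.cast_nonneg a
      simp only [Nat.add_zero, Nat.cast_zero, add_zero, zero_add]
      rw [div_le_iff₀ (by linarith)]
      linarith
    | succ j ih =>
      have h1 : a + 1 ≤ a + j + 1 := by omega
      have h2 : a + (j + 1) = a + j + 1 := by omega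
      rw [h2, Finset.sum_Icc_succ_top h1, Finset.sum_Icc_succ_top h1, hBs (a + j)]
      obtain ⟨z, hz⟩ : ∃ z : ℝ, z = (a : ℝ) + j + 1 := ⟨_, rfl⟩
      have hz1 : 1 ≤ z := by
        rw [hz]
        have h3 : (0 : ℝ) ≤ a := Nat.cast_nonneg a
        have h4 : (0 : ℝ) ≤ j := Nat.cast_nonneg j
        linarith
      have hc : ((a + j + 1 : ℕ) : ℝ) = z := by
        rw [hz]
        push_cast
        ring
      have hc2 : (a : ℝ) + ((j + 1 : ℕ) : ℝ) + 1 = z + 1 := by
        rw [hz]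
        push_cast
        ring
      rw [hc, hc2]
      rw [← hz] at ih
      have hfr : 1 / z ^ 2 + 2 / (z + 1) ≤ 2 / z := by
        rw [div_add_div _ _ (by positivity) (by positivity), div_le_div_iff₀ (by positivity)
          (by positivity)]
        nlinarith [mul_nonneg (sub_nonneg.2 hz1) (sq_nonneg z)]
      have hP := hB0 (a + j)
      have hb := hb0 (a + j + 1)
      have e1 : (B (a + j) + b (a + j + 1)) / z ^ 2 + 2 * (B (a + j) + b (a + j + 1)) / (z + 1) =
          (B (a + j) + b (a + j + 1)) * (1 / z ^ 2 + 2 / (z + 1)) := by ring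
      have e2 : (B (a + j) + b (a + j + 1)) * (1 / z ^ 2 + 2 / (z + 1)) ≤
          (B (a + j) + b (a + j + 1)) * (2 / z) :=
        mul_le_mul_of_nonneg_left hfr (by linarith)
      have e3 : (B (a + j) + b (a + j + 1)) * (2 / z) =
          2 * B (a + j) / z + 2 * (b (a + j + 1) / z) := by ring
      linarith
  have hpt : ∀ N ∈ S, (1 : ℝ) / N ≤ 2 / θ * (B N / (N : ℝ) ^ 2) := by
    intro N hNS
    obtain ⟨H, h1, h2, h3⟩ := hN N hNS
    have h4 : ∑ n ∈ Finset.Ioc (N - H) N, b n ≤ B N := by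
      rw [hB]
      exact Finset.sum_le_sum_of_subset_of_nonneg
        (Finset.Ioc_subset_Ioc (Nat.zero_le _) le_rfl) fun n _ _ => hb0 n
    have h5 : (N : ℝ) < 2 * H := by exact_mod_cast h1
    have h6 : 0 < N := by
      have := (Finset.mem_Icc.1 (hS hNS)).1
      omega
    have h7 : (0 : ℝ) < N := by exact_mod_cast h6
    have h8 : θ * N ≤ 2 * B N := by
      have h9 : θ * N ≤ θ * (2 * H) := mul_le_mul_of_nonneg_left h5.le hθ.le
      linarith
    have e1 : 2 / θ * (B N / (N : ℝ) ^ 2) = 2 * B N / (θ * (N : ℝ) ^ 2) := by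
      field_simp
    rw [e1, div_le_div_iff₀ h7 (by positivity)]
    have e2 : 1 * (θ * (N : ℝ) ^ 2) = θ * N * N := by ring
    rw [e2]
    exact mul_le_mul_of_nonneg_right h8 h7.le
  by_cases hy : y < a + 1
  · have hS0 : S = ∅ := by
      rw [Finset.Icc_eq_empty (by omega)] at hS
      exact Finset.subset_empty.1 hS
    rw [hS0, Finset.sum_empty, Finset.Icc_eq_empty (by omega), Finset.sum_empty]
    positivity
  · obtain ⟨j, rfl⟩ : ∃ j, y = a + j := ⟨y - a, by omega⟩
    have h1 := key j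
    have h2 : 0 ≤ 2 * B (a + j) / ((a : ℝ) + j + 1) := by
      have := hB0 (a + j)
      positivity
    calc ∑ N ∈ S, (1 : ℝ) / N ≤ ∑ N ∈ S, 2 / θ * (B N / (N : ℝ) ^ 2) := Finset.sum_le_sum hpt
      _ ≤ ∑ N ∈ Finset.Icc (a + 1) (a + j), 2 / θ * (B N / (N : ℝ) ^ 2) :=
          Finset.sum_le_sum_of_subset_of_nonneg hS fun N _ _ =>
            mul_nonneg (by positivity) (div_nonneg (hB0 N) (by positivity))
      _ = 2 / θ * ∑ N ∈ Finset.Icc (a + 1) (a + j), B N / (N : ℝ) ^ 2 := by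
          rw [Finset.mul_sum]
      _ ≤ 2 / θ * (2 * (1 + ∑ n ∈ Finset.Icc (a + 1) (a + j), b n / n)) :=
          mul_le_mul_of_nonneg_left (by linarith) (by positivity)
      _ = 4 / θ * (1 + ∑ n ∈ Finset.Icc (a + 1) (a + j), b n / n) := by ring

end Pool.Agent.H70.MCL
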